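import Pool.Agent.Lib_helper4.Tight.Normal

/-!
# A tight smooth torus with one boundary curve in Euclidean 3-space
-/

open Set Function Topology
open scoped ContDiff Manifold

namespace Pool.Agent.Results.MP_711db1_gt.TightTorus

/-- A closed or open half-space of Euclidean 3-space. -/
def IsHalfSpace (h : Set (EuclideanSpace ℝ (Fin 3))) : Prop :=
  ∃ v : EuclideanSpace ℝ (Fin 3), v ≠ 0 ∧
    ∃ c : ℝ, h = {x | c ≤ inner ℝ v x} ∨ h = {x | c < inner ℝ v x}

/-- `f` is 0-tight: the preimage of every closed or open half-space is connected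
(the empty set counting as connected). -/
def ZeroTight {M : Type} [TopologicalSpace M] (f : M → EuclideanSpace ℝ (Fin 3)) : Prop :=
  ∀ h, IsHalfSpace h → IsPreconnected (f ⁻¹' h)

/-- `f` lies in no affine plane. -/
def Substantial {M : Type} (f : M → EuclideanSpace ℝ (Fin 3)) : Prop :=
  ∀ v : EuclideanSpace ℝ (Fin 3), v ≠ 0 → ∀ c : ℝ, ∃ p, inner ℝ v (f p) ≠ c

/-- `M` is a compact connected smooth surface (with boundary). -/
def IsCompactSurface (M : Type) [TopologicalSpace M] [ChartedSpace (EuclideanHalfSpace 2) M] :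
    Prop :=
  IsManifold (𝓡∂ 2) ∞ M ∧ T2Space M ∧ SecondCountableTopology M ∧ CompactSpace M ∧
    ConnectedSpace M

/-- `M` is the closed disc up to homeomorphism. -/
def IsDisc (M : Type) [TopologicalSpace M] : Prop :=
  Nonempty (M ≃ₜ Metric.closedBall (0 : EuclideanSpace ℝ (Fin 2)) 1)

/-- The map `f` from a manifold `M` (with model `I`) to the inner product space `F` has a
continuous nowhere zero normal field `ν`: `ν p` is orthogonal to the image of the differential
of `f` at `p`. -/
def HasNormalField {E H F M : Type} [NormedAddCommGroup E] [NormedSpace ℝ E] [TopologicalSpace H]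
    (I : ModelWithCorners ℝ E H) [NormedAddCommGroup F] [InnerProductSpace ℝ F]
    [TopologicalSpace M] [ChartedSpace H M] (f : M → F) : Prop :=
  ∃ ν : M → F, Continuous ν ∧ (∀ p, ν p ≠ 0) ∧
    ∀ (p : M) (w : TangentSpace I p), inner ℝ (ν p) (mfderiv I 𝓘(ℝ, F) f p w : F) = 0

/-- `f`, from a surface with boundary to Euclidean 3-space, is two-sided: it has a continuous
nowhere zero normal field. -/
def TwoSided {M : Type} [TopologicalSpace M] [ChartedSpace (EuclideanHalfSpace 2) M]
    (f : M → EuclideanSpace ℝ (Fin 3)) : Prop :=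
  HasNormalField (𝓡∂ 2) f

/-- The convex hull of the image equals the convex hull of the image of the boundary. -/
def HullCondition {M : Type} [TopologicalSpace M] [ChartedSpace (EuclideanHalfSpace 2) M]
    (f : M → EuclideanSpace ℝ (Fin 3)) : Prop :=
  convexHull ℝ (range f) = convexHull ℝ (f '' (𝓡∂ 2).boundary M)

open Pool.Agent.Tight in
/-- There are a compact connected surface `M` with boundary, whose boundary is connected
(one boundary curve), not simply connected and not the disc, and a smooth embedding
`f : M → E³`, smooth up to the boundary, with a continuous normal field (so `M` is orientable),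
which is 0-tight, satisfies `H(f(M)) = H(f(∂M))`, and lies in no plane. -/
theorem result :
    ∃ (M : Type) (_ : TopologicalSpace M) (_ : ChartedSpace (EuclideanHalfSpace 2) M)
      (f : M → EuclideanSpace ℝ (Fin 3)),
      IsCompactSurface M ∧ IsConnected ((𝓡∂ 2).boundary M) ∧
      ¬ SimplyConnectedSpace M ∧ ¬ IsDisc M ∧
      Manifold.IsSmoothEmbedding (𝓡∂ 2) (𝓡 3) ∞ f ∧ TwoSided f ∧
      ZeroTight f ∧ HullCondition f ∧ Substantial f := by
  let _ := chartedSpace slices
  have hman := isManifold slices
  have hcomp : CompactSpace MM := isCompact_iff_compactSpace.1 isCompact_MM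
  have hconn : ConnectedSpace MM := isConnected_iff_connectedSpace.1 isConnected_MM
  have hbd : (Subtype.val : MM → EuclideanSpace ℝ (Fin 3)) '' (𝓡∂ 2).boundary MM = BB := by
    ext q
    constructor
    · rintro ⟨p, hp, rfl⟩
      exact (slices_spec p).1 ((mem_boundary_iff slices p).1 hp)
    · intro hq
      exact ⟨⟨q, hq.1⟩, (mem_boundary_iff slices _).2 ((slices_spec _).2 hq), rfl⟩
  refine ⟨MM, inferInstance, chartedSpace slices, Subtype.val,
    ⟨hman, inferInstance, inferInstance, hcomp, hconn⟩, ?_, not_simplyConnected,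
    fun ⟨e⟩ => ?_, isSmoothEmbedding slices,
    ⟨normalField, continuous_normalField, normalField_ne, normalField_orth⟩, ?_, ?_, ?_⟩
  · have h1 := isConnected_BB
    rw [← hbd] at h1
    refine ⟨?_, ?_⟩
    · obtain ⟨_, p, hp, _⟩ := h1.1
      exact ⟨p, hp⟩
    · exact (IsInducing.subtypeVal.isPreconnected_image).1 h1.2
  · apply not_simplyConnected
    have h2 : ContractibleSpace (Metric.closedBall (0 : EuclideanSpace ℝ (Fin 2)) 1) :=
      (convex_closedBall _ _).contractibleSpace ⟨0, by simp⟩
    have h3 : ContractibleSpace MM := e.contractibleSpace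
    infer_instance
  · rintro h ⟨v, _, c, rfl | rfl⟩
    · have h4 := preconnected_closed v c
      apply (IsInducing.subtypeVal.isPreconnected_image).1
      convert h4 using 1
      ext q
      constructor
      · rintro ⟨p, hp, rfl⟩
        exact ⟨p.2, hp⟩
      · rintro ⟨h5, h6⟩
        exact ⟨⟨q, h5⟩, h6, rfl⟩
    · have h4 := preconnected_open v c
      apply (IsInducing.subtypeVal.isPreconnected_image).1
      convert h4 using 1
      ext q
      constructor
      · rintro ⟨p, hp, rfl⟩
        exact ⟨p.2, hp⟩
      · rintro ⟨h5, h6⟩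
        exact ⟨⟨q, h5⟩, h6, rfl⟩
  · rw [HullCondition, Subtype.range_coe, hbd]
    exact convexHull_eq
  · intro v hv c
    by_contra hcon
    push Not at hcon
    have key : ∀ x y z : ℝ, (x = 1 ∨ x = -1) → (y = 1 ∨ y = -1) → z ∈ Icc (-1 : ℝ) 1 →
        v 0 * x + v 1 * y + v 2 * z = c := by
      intro x y z hx hy hz
      have := hcon ⟨pt x y z, ridge_mem hx hy hz⟩
      rw [inner_eq] at this
      simpa using this
    have h1 := key 1 1 0 (Or.inl rfl) (Or.inl rfl) (by norm_num)
    have h2 := key 1 (-1) 0 (Or.inl rfl) (Or.inr rfl) (by norm_num)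
    have h3 := key (-1) 1 0 (Or.inr rfl) (Or.inl rfl) (by norm_num)
    have h4 := key 1 1 1 (Or.inl rfl) (Or.inl rfl) (by norm_num)
    apply hv
    apply ext3 <;> linarith

end Pool.Agent.Results.MP_711db1_gt.TightTorus
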